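import Pool.Agent.helper73.AD.Basic

/-!
Module OP of project ad (MP_a29257_gt): the set Bad is open.
-/

namespace Pool.Agent.helper73.AD

open scoped BigOperators Topology
open Filter

variable {J K : Type} [Fintype J] [DecidableEq J] [Fintype K] [DecidableEq K]

/-- Riccati blow-up -/
theorem OP_riccati (f f' : ℝ → ℝ) (κ a δ : ℝ) (hκ : 0 < κ) (ha : 0 < a) (hδ : 0 < δ)
    (hd : ∀ s ∈ Set.Icc 0 δ, HasDerivAt f (f' s) s)
    (hf : ∀ s ∈ Set.Icc 0 δ, f' s ≤ -(κ * f s ^ 2))
    (h0 : f 0 ≤ -a) (hbig : 1 < κ * a * δ) : False := by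
  have hcont : ContinuousOn f (Set.Icc 0 δ) := fun s hs => (hd s hs).continuousAt.continuousWithinAt
  have hanti : AntitoneOn f (Set.Icc 0 δ) := by
    apply antitoneOn_of_deriv_nonpos (convex_Icc 0 δ) hcont
    · intro s hs
      rw [interior_Icc] at hs
      exact (hd s ⟨hs.1.le, hs.2.le⟩).differentiableAt.differentiableWithinAt
    · intro s hs
      rw [interior_Icc] at hs
      rw [(hd s ⟨hs.1.le, hs.2.le⟩).deriv]
      have h1 := hf s ⟨hs.1.le, hs.2.le⟩
      have h2 : 0 ≤ κ * f s ^ 2 := by positivity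
      linarith
  have hneg : ∀ s ∈ Set.Icc 0 δ, f s ≤ -a := fun s hs =>
    (hanti ⟨le_rfl, hδ.le⟩ hs hs.1).trans h0
  have hne : ∀ s ∈ Set.Icc 0 δ, f s ≠ 0 := fun s hs => by
    have := hneg s hs; linarith
  have hder : ∀ s ∈ Set.Icc 0 δ,
      HasDerivAt (fun s => (f s)⁻¹ - κ * s) (-f' s / f s ^ 2 - κ) s := fun s hs => by
    have h1 := (hd s hs).fun_inv (hne s hs)
    have h2 := (hasDerivAt_id' s).const_mul κ
    have h3 := h1.fun_sub h2
    rwa [mul_one] at h3
  have hmono : MonotoneOn (fun s => (f s)⁻¹ - κ * s) (Set.Icc 0 δ) := by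
    apply monotoneOn_of_deriv_nonneg (convex_Icc 0 δ)
    · exact fun s hs => (hder s hs).continuousAt.continuousWithinAt
    · intro s hs
      rw [interior_Icc] at hs
      exact (hder s ⟨hs.1.le, hs.2.le⟩).differentiableAt.differentiableWithinAt
    · intro s hs
      rw [interior_Icc] at hs
      have hs' : s ∈ Set.Icc 0 δ := ⟨hs.1.le, hs.2.le⟩
      rw [(hder s hs').deriv]
      have h1 := hf s hs'
      have h2 : 0 < f s ^ 2 := by
        have := hne s hs'; positivity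
      rw [sub_nonneg, le_div_iff₀ h2]
      linarith
  have h1 := hmono ⟨le_rfl, hδ.le⟩ ⟨hδ.le, le_rfl⟩ hδ.le
  simp only [mul_zero, sub_zero] at h1
  have h2 : (f δ)⁻¹ < 0 := by
    have := hneg δ ⟨hδ.le, le_rfl⟩
    exact inv_lt_zero.mpr (by linarith)
  have h3 : -a⁻¹ ≤ (f 0)⁻¹ := by
    rw [← inv_neg]
    exact (inv_le_inv_of_neg (by linarith) (by linarith)).mpr h0
  have h4 : κ * δ < a⁻¹ := by linarith
  have h5 : κ * δ * a < 1 := by
    have := mul_lt_mul_of_pos_right h4 ha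
    rwa [inv_mul_cancel₀ ha.ne'] at this
  nlinarith

omit [DecidableEq J] in
/-- symplectic expansion in a Darboux basis -/
theorem OP_expand {e f : K → PS J} (hef : ∀ k m, om (e k) (f m) = if k = m then 1 else 0)
    (hff : ∀ k m, om (f k) (f m) = 0)
    (hlg : ∀ x : PS J, (∀ k, om (e k) x = 0) → ∃ c : K → ℝ, x = ∑ k, c k • e k)
    (v v' : PS J) :
    om v v' = ∑ k, (om v (f k) * om (e k) v' - om (e k) v * om v' (f k)) := by
  obtain ⟨c, hc⟩ := hlg (v - ∑ k, om (e k) v • f k) (fun m => by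
    rw [om_sub_right, om_sum_right]
    simp only [om_smul_right, hef]
    simp)
  have hv : v = ∑ k, c k • e k + ∑ k, om (e k) v • f k := by rw [← hc]; abel
  have hck : ∀ m, om v (f m) = c m := fun m => by
    conv_lhs => rw [hv]
    rw [om_add_left, om_sum_left, om_sum_left]
    simp only [om_smul_left, hef, hff]
    simp
  conv_lhs => rw [hv]
  rw [om_add_left, om_sum_left, om_sum_left, ← Finset.sum_add_distrib]
  refine Finset.sum_congr rfl fun k _ => ?_
  rw [om_smul_left, om_smul_left, hck, om_anti (f k) v']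
  ring

/-- differentiability of a determinant -/
theorem OP_det {A : ℝ → Matrix K K ℝ} {s : ℝ}
    (h : ∀ i j, DifferentiableAt ℝ (fun s => A s i j) s) :
    DifferentiableAt ℝ (fun s => (A s).det) s := by
  simp only [Matrix.det_apply]
  refine DifferentiableAt.fun_sum fun σ _ => ?_
  refine DifferentiableAt.const_smul ?_ _
  exact DifferentiableAt.fun_finsetProd fun i _ => h _ _

/-- differentiability of the solution of a linear system -/
theorem OP_solve {A : ℝ → Matrix K K ℝ} {s : ℝ} (h : K → ℝ)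
    (hd : ∀ i j, DifferentiableAt ℝ (fun s => A s i j) s) (hdet : (A s).det ≠ 0) (k : K) :
    DifferentiableAt ℝ (fun s => ((A s).det)⁻¹ * (A s).cramer h k) s := by
  refine (((OP_det hd).inv hdet)).mul ?_
  simp only [Matrix.cramer_apply]
  refine OP_det fun i j => ?_
  simp only [Matrix.updateCol_apply]
  by_cases hj : j = k
  · simp [hj]
  · simpa [hj] using hd i j

theorem OP_Xv_single (S : Sys J K) (m : K) (z : PS J) : S.Xv (Pi.single m 1) z = S.X m z := by
  unfold Sys.Xv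
  rw [Finset.sum_eq_single m]
  · simp
  · intro k _ hk; simp [hk]
  · simp

/-- linearity of rot in the vector -/
theorem OP_rot_Xv (S : Sys J K) (κ v : K → ℝ) (z z' : PS J) :
    ∑ m, v m • S.rot κ z (S.X m z') = S.rot κ z (S.Xv v z') := by
  refine eq_of_om _ _ fun y => ?_
  rw [om_sum_left, om_rot]
  simp only [om_smul_left, om_rot]
  unfold Sys.Xv Sys.hv
  simp only [Finset.mul_sum]
  rw [Finset.sum_comm]
  refine Finset.sum_congr rfl fun k _ => ?_
  have : ∀ s : Finset K, hs (S.H k) z (∑ m ∈ s, v m • S.X m z') y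
      = ∑ m ∈ s, v m * hs (S.H k) z (S.X m z') y := by
    intro s
    induction s using Finset.induction_on with
    | empty => simp [hs]
    | insert a s ha ih => rw [Finset.sum_insert ha, Finset.sum_insert ha, hs_add_left,
        hs_smul_left, ih]
  rw [this, Finset.mul_sum]
  exact Finset.sum_congr rfl fun m _ => by ring

theorem OP_continuous_Z {S : Sys J K} (Φ : SFam S) : Continuous Φ.Z :=
  continuous_iff_continuousAt.mpr fun T => (Φ.dZ T).continuousAt

theorem OP_continuous_X {S : Sys J K} (Φ : SFam S) (k : K) :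
    Continuous (fun T => S.X k (Φ.Z T)) := by
  have h1 : ContinuousOn (fun z => fderiv ℝ (S.H k) z) (Cone J) :=
    (S.smooth k).continuousOn_fderiv_of_isOpen isOpen_Cone (by norm_num)
  have h2 : Continuous (fun T => fderiv ℝ (S.H k) (Φ.Z T)) :=
    h1.comp_continuous (OP_continuous_Z Φ) Φ.mem
  have h3 : Continuous (fun T => sgL (fderiv ℝ (S.H k) (Φ.Z T))) := sgL.continuous.comp h2
  exact h3

theorem OP_continuous_Xv {S : Sys J K} (Φ : SFam S) (v : K → ℝ) :
    Continuous (fun T => S.Xv v (Φ.Z T)) := by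
  unfold Sys.Xv
  exact continuous_finsetSum _ fun k _ => by
    have := (OP_continuous_X Φ k).const_smul (v k)
    exact this

theorem OP_iso (hIS : IS_stmt) {S : Sys J K} (Φ : SFam S) (T v v' : K → ℝ) :
    om (S.Xv v (Φ.Z T)) (S.Xv v' (Φ.Z T)) = 0 := by
  unfold Sys.Xv
  rw [om_sum_left]
  refine Finset.sum_eq_zero fun k _ => ?_
  rw [om_smul_left, om_sum_right]
  rw [Finset.sum_eq_zero fun m _ => ?_, mul_zero]
  rw [om_smul_right, hIS J K S Φ T k m, mul_zero]

/-- a nonsingular line cannot carry a vector that is very negative compared to its eta part -/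
theorem OP_core (hIS : IS_stmt) (hDR : DR_stmt) {S : Sys J K} (Φ : SFam S)
    {f : K → PS J} (hef : ∀ k m, om (S.e k) (f m) = if k = m then 1 else 0)
    (hff : ∀ k m, om (f k) (f m) = 0)
    (hlg : ∀ x : PS J, (∀ k, om (S.e k) x = 0) → ∃ c : K → ℝ, x = ∑ k, c k • S.e k)
    (T w0 : K → ℝ) (c A Q a δ : ℝ) (hc : 0 < c) (hA : 0 < A) (hQ : 0 < Q) (ha : 0 < a)
    (hδ : 0 < δ) (hAf : ∀ v : PS J, ∑ k, (om v (f k)) ^ 2 ≤ A * ‖v‖ ^ 2)
    (hpd : ∀ s ∈ Set.Icc 0 δ, ∀ x, c * ‖x‖ ^ 2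
      ≤ S.hv (fun _ => 1) (Φ.Z (T + s • (fun _ => (-1 : ℝ)))) x x)
    (hns : ∀ s : ℝ, ∀ w : K → ℝ, (∀ k, om (S.e k) (S.Xv w
      (Φ.Z (T + s • (fun _ => (-1 : ℝ))))) = 0) → w = 0)
    (h1 : ∑ k, om (S.Xv w0 (Φ.Z T)) (f k) * om (S.e k) (S.Xv w0 (Φ.Z T)) ≤ -a)
    (h2 : ∑ k, (om (S.e k) (S.Xv w0 (Φ.Z T))) ^ 2 ≤ Q)
    (hbig : 1 < (c / (A * Q)) * a * δ) : False := by
  set κ : K → ℝ := fun _ => -1 with hκ
  set h : K → ℝ := fun k => om (S.e k) (S.Xv w0 (Φ.Z T)) with hh
  set z : ℝ → PS J := fun s => Φ.Z (T + s • κ) with hz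
  let M : ℝ → Matrix K K ℝ := fun s => Matrix.of fun k m => om (S.e k) (S.X m (z s))
  have hM : ∀ s (v : K → ℝ) k, om (S.e k) (S.Xv v (z s)) = (M s).mulVec v k := by
    intro s v k
    unfold Sys.Xv
    rw [om_sum_right]
    simp only [Matrix.mulVec, dotProduct, M, Matrix.of_apply]
    exact Finset.sum_congr rfl fun m _ => by rw [om_smul_right, mul_comm]
  have hdet : ∀ s, (M s).det ≠ 0 := by
    intro s h0
    obtain ⟨v, hv, hv0⟩ := Matrix.exists_mulVec_eq_zero_iff.mpr h0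
    exact hv (hns s v fun k => by
      have := hM s v k
      rw [hv0] at this; exact this)
  let w : ℝ → K → ℝ := fun s k => ((M s).det)⁻¹ * (M s).cramer h k
  have hw : ∀ s, (M s).mulVec (w s) = h := by
    intro s
    have e1 : w s = ((M s).det)⁻¹ • (M s).cramer h := rfl
    rw [e1, Matrix.mulVec_smul, Matrix.mulVec_cramer, smul_smul, inv_mul_cancel₀ (hdet s), one_smul]
  have hz0 : z 0 = Φ.Z T := by simp [hz]
  have hw0 : w 0 = w0 := by
    have : w 0 - w0 = 0 := hns 0 _ fun k => by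
      have e1 := hM 0 (w 0 - w0) k
      have e2 : (M 0).mulVec w0 = h := by
        funext k
        rw [← hM 0 w0 k, hz0]
      rw [Matrix.mulVec_sub, hw 0, e2, sub_self] at e1
      exact e1
    exact sub_eq_zero.mp this
  -- derivative of X m
  have hX : ∀ m s, HasDerivAt (fun s => S.X m (z s)) (S.rot κ (z s) (S.X m (z s))) s := by
    intro m s
    have := hDR J K S Φ (Pi.single m 1) κ T s
    simpa only [OP_Xv_single] using this
  have hMd : ∀ s i j, DifferentiableAt ℝ (fun s => M s i j) s := by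
    intro s i j
    have := ((omL (S.e i)).hasFDerivAt.comp_hasDerivAt s (hX j s)).differentiableAt
    exact this
  have hwd : ∀ s k, HasDerivAt (fun s => w s k) (deriv (fun s => w s k) s) s := fun s k =>
    (OP_solve h (hMd s) (hdet s) k).hasDerivAt
  let w' : ℝ → K → ℝ := fun s k => deriv (fun s => w s k) s
  let y : ℝ → PS J := fun s => S.Xv (w s) (z s)
  let y' : ℝ → PS J := fun s => S.rot κ (z s) (y s) + S.Xv (w' s) (z s)
  have hy : ∀ s, HasDerivAt y (y' s) s := by
    intro s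
    have e1 : ∀ m ∈ (Finset.univ : Finset K), HasDerivAt (fun s => w s m • S.X m (z s))
        (w s m • S.rot κ (z s) (S.X m (z s)) + w' s m • S.X m (z s)) s := fun m _ =>
      (hwd s m).smul (hX m s)
    have e2 := HasDerivAt.fun_sum e1
    rw [Finset.sum_add_distrib, OP_rot_Xv] at e2
    exact e2
  have heta : ∀ s k, om (S.e k) (y s) = h k := fun s k => by
    have := hM s (w s) k
    rw [hw s] at this; exact this
  have heta' : ∀ s k, om (S.e k) (y' s) = 0 := fun s k => by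
    have e1 : HasDerivAt (fun s => om (S.e k) (y s)) (om (S.e k) (y' s)) s :=
      (omL (S.e k)).hasFDerivAt.comp_hasDerivAt s (hy s)
    have e2 : (fun s => om (S.e k) (y s)) = fun _ => h k := funext fun s => heta s k
    rw [e2] at e1
    exact e1.unique (hasDerivAt_const s (h k))
  let F : PS J := ∑ k, h k • f k
  have hF : ∀ v, om v F = ∑ k, om v (f k) * h k := fun v => by
    simp only [F]
    rw [om_sum_right]
    exact Finset.sum_congr rfl fun k _ => by rw [om_smul_right, mul_comm]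
  have hfd : ∀ s, HasDerivAt (fun s => om (y s) F) (-S.hv (fun _ => 1) (z s) (y s) (y s)) s := by
    intro s
    have e1 : HasDerivAt (fun s => om (y s) F) (om (y' s) F) s := by
      have e3 := ((omL F).hasFDerivAt.comp_hasDerivAt s (hy s)).neg
      have e4 : (-(⇑(omL F) ∘ y)) = fun s => om (y s) F := by
        funext s
        simp only [Pi.neg_apply, Function.comp_apply, omL_apply]
        exact (om_anti _ _).symm
      rw [e4, omL_apply, ← om_anti] at e3
      exact e3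
    have e2 : om (y' s) F = om (y' s) (y s) := by
      rw [OP_expand hef hff hlg (y' s) (y s), hF]
      refine Finset.sum_congr rfl fun k _ => ?_
      rw [heta, heta', zero_mul, sub_zero]
    have e5 : om (y' s) (y s) = -S.hv (fun _ => 1) (z s) (y s) (y s) := by
      simp only [y']
      rw [om_add_left, om_rot]
      have : om (S.Xv (w' s) (z s)) (y s) = 0 := OP_iso hIS Φ _ _ _
      rw [this, add_zero]
      unfold Sys.hv
      simp [hκ]
    rw [e2, e5] at e1
    exact e1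
  refine OP_riccati (fun s => om (y s) F) (fun s => -S.hv (fun _ => 1) (z s) (y s) (y s))
    (c / (A * Q)) a δ (by positivity) ha hδ (fun s _ => hfd s) ?_ ?_ hbig
  · intro s hs
    have e1 := hpd s hs (y s)
    have e2 : (om (y s) F) ^ 2 ≤ (A * ‖y s‖ ^ 2) * Q := by
      rw [hF]
      refine (Finset.sum_mul_sq_le_sq_mul_sq _ _ _).trans ?_
      have := hAf (y s)
      gcongr
    have e3 : c / (A * Q) * (om (y s) F) ^ 2 ≤ c * ‖y s‖ ^ 2 := by
      calc c / (A * Q) * (om (y s) F) ^ 2 ≤ c / (A * Q) * ((A * ‖y s‖ ^ 2) * Q) := by gcongr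
        _ = c * ‖y s‖ ^ 2 := by field_simp
    linarith
  · have e1 : y 0 = S.Xv w0 (Φ.Z T) := by simp only [y, hw0, hz0]
    rw [hF, e1]
    exact h1

theorem OP_of (hIS : IS_stmt) (hIE : IE_stmt) (hDX : DX_stmt) (hLG : LG_stmt) (hPD : PD_stmt)
    (hNZ : NZ_stmt) (hDR : DR_stmt) : OP_stmt := by
  intro J K _ _ _ _ S Φ
  obtain ⟨hee, hli⟩ := hIE J K S Φ
  obtain ⟨f, hef, hff⟩ := hDX J K S.e S.card hee hli
  have hlg := hLG J K S.e S.card hee hli
  rw [isOpen_iff_mem_nhds]
  rintro T ⟨s0, w0, hw0, hsing⟩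
  set one : K → ℝ := fun _ => 1 with hone
  set T0 : K → ℝ := T + s0 • one with hT0
  set x0 : PS J := S.Xv w0 (Φ.Z T0) with hx0
  have hx0ne : x0 ≠ 0 := fun h => hw0 (hNZ J K S Φ T0 w0 h)
  have heta0 : ∀ k, om (S.e k) x0 = 0 := fun k => by
    rw [om_anti]; exact neg_eq_zero.mpr (hsing k)
  obtain ⟨hpd1, hpd2⟩ := hPD J K S one (fun _ => one_pos)
  set h0 : ℝ := S.hv one (Φ.Z T0) x0 x0 with hh0
  have hh0pos : 0 < h0 := hpd1 _ (Φ.mem T0) x0 hx0ne
  obtain ⟨c, hc, hev⟩ := hpd2 _ (Φ.mem T0)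
  have hev' : ∀ᶠ T' in 𝓝 T0, ∀ x : PS J, c * ‖x‖ ^ 2 ≤ S.hv one (Φ.Z T') x x :=
    (OP_continuous_Z Φ).continuousAt.eventually hev
  obtain ⟨ρ, hρ, hball⟩ := Metric.eventually_nhds_iff.mp hev'
  -- the constant A
  obtain ⟨A, hA, hAf⟩ : ∃ A : ℝ, 0 < A ∧ ∀ v : PS J, ∑ k, (om v (f k)) ^ 2 ≤ A * ‖v‖ ^ 2 := by
    refine ⟨∑ k, (2 * Fintype.card J * ‖f k‖) ^ 2 + 1, by positivity, fun v => ?_⟩
    rw [add_mul, Finset.sum_mul]
    have : ∑ k, (om v (f k)) ^ 2 ≤ ∑ k, (2 * Fintype.card J * ‖f k‖) ^ 2 * ‖v‖ ^ 2 := by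
      refine Finset.sum_le_sum fun k _ => ?_
      rw [← mul_pow, ← sq_abs]
      have h1 := abs_om_le v (f k)
      refine pow_le_pow_left₀ (abs_nonneg _) ?_ 2
      linarith
    have h2 : 0 ≤ 1 * ‖v‖ ^ 2 := by positivity
    linarith
  -- the path through T0
  let xs : ℝ → PS J := fun s => S.Xv w0 (Φ.Z (T0 + s • one))
  have hxs : ∀ s, HasDerivAt xs (S.rot one (Φ.Z (T0 + s • one)) (xs s)) s := fun s =>
    hDR J K S Φ w0 one T0 s
  have hxs0 : xs 0 = x0 := by simp [xs, hx0]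
  set x0' : PS J := S.rot one (Φ.Z T0) x0 with hx0'
  have hxd : HasDerivAt xs x0' 0 := by
    have := hxs 0
    rw [hxs0, zero_smul, add_zero] at this
    exact this
  -- eta and phi along the path
  have hetad : ∀ k, HasDerivAt (fun s => om (S.e k) (xs s)) (om (S.e k) x0') 0 := fun k =>
    (omL (S.e k)).hasFDerivAt.comp_hasDerivAt 0 hxd
  have huud : ∀ k, HasDerivAt (fun s => om (xs s) (f k)) (om x0' (f k)) 0 := fun k => by
    have e3 := ((omL (f k)).hasFDerivAt.comp_hasDerivAt 0 hxd).neg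
    have e4 : (-(⇑(omL (f k)) ∘ xs)) = fun s => om (xs s) (f k) := by
      funext s
      simp only [Pi.neg_apply, Function.comp_apply, omL_apply]
      exact (om_anti _ _).symm
    rw [e4, omL_apply, ← om_anti] at e3
    exact e3
  have hphi : HasDerivAt (fun s => ∑ k, om (xs s) (f k) * om (S.e k) (xs s)) (-h0) 0 := by
    have e1 : ∀ k ∈ (Finset.univ : Finset K), HasDerivAt
        (fun s => om (xs s) (f k) * om (S.e k) (xs s))
        (om x0' (f k) * om (S.e k) (xs 0) + om (xs 0) (f k) * om (S.e k) x0') 0 := fun k _ =>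
      (huud k).fun_mul (hetad k)
    have e2 := HasDerivAt.fun_sum e1
    have e3 : om x0' x0 = h0 := by rw [hx0', om_rot]
    have e4 : ∑ k, (om x0' (f k) * om (S.e k) (xs 0) + om (xs 0) (f k) * om (S.e k) x0') = -h0 := by
      rw [← e3, OP_expand hef hff hlg x0' x0, ← Finset.sum_neg_distrib]
      refine Finset.sum_congr rfl fun k _ => ?_
      rw [hxs0, heta0 k]
      ring
    rw [e4] at e2
    exact e2
  set B : ℝ := ∑ k, (om (S.e k) x0') ^ 2 + 1 with hB
  have hBpos : 0 < B := by positivity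
  have hphi0 : ∑ k, om (xs 0) (f k) * om (S.e k) (xs 0) = 0 :=
    Finset.sum_eq_zero fun k _ => by rw [hxs0, heta0 k, mul_zero]
  have ev1 : ∀ᶠ t : ℝ in 𝓝[>] 0,
      t⁻¹ * (∑ k, om (xs t) (f k) * om (S.e k) (xs t)) < -(h0 / 2) := by
    have e1 := hphi.tendsto_slope_zero_right
    have e2 : ∀ᶠ t : ℝ in 𝓝[>] 0, t⁻¹ • ((∑ k, om (xs (0 + t)) (f k) * om (S.e k) (xs (0 + t)))
        - ∑ k, om (xs 0) (f k) * om (S.e k) (xs 0)) < -(h0 / 2) :=
      e1.eventually_lt_const (by linarith)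
    filter_upwards [e2] with t ht
    rwa [hphi0, sub_zero, zero_add, smul_eq_mul] at ht
  have ev2 : ∀ᶠ t : ℝ in 𝓝[>] 0, ∑ k, (t⁻¹ * om (S.e k) (xs t)) ^ 2 < B := by
    have e1 : Tendsto (fun t : ℝ => ∑ k, (t⁻¹ * om (S.e k) (xs t)) ^ 2) (𝓝[>] 0)
        (𝓝 (∑ k, (om (S.e k) x0') ^ 2)) := by
      refine tendsto_finsetSum _ fun k _ => ?_
      have e2 := (hetad k).tendsto_slope_zero_right
      simp only [zero_add, hxs0, heta0 k, sub_zero, smul_eq_mul] at e2
      exact e2.pow 2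
    exact e1.eventually_lt_const (by rw [hB]; linarith)
  set δ : ℝ := ρ / 4 with hδ
  have hδpos : 0 < δ := by positivity
  have ev3 : ∀ᶠ t : ℝ in 𝓝[>] 0, t < min δ (c * h0 * δ / (8 * A * B)) :=
    (tendsto_id.mono_left nhdsWithin_le_nhds).eventually_lt_const (by positivity)
  obtain ⟨s1, ⟨h1, h2, h3⟩, hs1⟩ := ((ev1.and (ev2.and ev3)).and self_mem_nhdsWithin).exists
  have hs1pos : 0 < s1 := hs1
  have h31 : s1 < δ := h3.trans_le (min_le_left _ _)
  have h32 : s1 < c * h0 * δ / (8 * A * B) := h3.trans_le (min_le_right _ _)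
  have h1' : ∑ k, om (xs s1) (f k) * om (S.e k) (xs s1) < -(h0 / 4 * s1) := by
    rw [inv_mul_lt_iff₀ hs1pos] at h1
    have : 0 < h0 / 4 * s1 := by positivity
    linarith
  have h2' : ∑ k, (om (S.e k) (xs s1)) ^ 2 < 2 * B * s1 ^ 2 := by
    have e1 : ∑ k, (om (S.e k) (xs s1)) ^ 2 = s1 ^ 2 * ∑ k, (s1⁻¹ * om (S.e k) (xs s1)) ^ 2 := by
      rw [Finset.mul_sum]
      refine Finset.sum_congr rfl fun k _ => ?_
      field_simp
    rw [e1]
    have e2 : 0 < s1 ^ 2 := by positivity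
    have e3 := mul_lt_mul_of_pos_left h2 e2
    have e4 : 0 < B * s1 ^ 2 := by positivity
    linarith
  set T1 : K → ℝ := T0 + s1 • one with hT1
  have hXc := OP_continuous_Xv Φ w0
  have hec : ∀ k, Continuous (fun T' => om (S.e k) (S.Xv w0 (Φ.Z T'))) := fun k =>
    (omL (S.e k)).continuous.comp hXc
  have huc : ∀ k, Continuous (fun T' => om (S.Xv w0 (Φ.Z T')) (f k)) := fun k => by
    have : (fun T' => om (S.Xv w0 (Φ.Z T')) (f k)) = fun T' => -omL (f k) (S.Xv w0 (Φ.Z T')) := by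
      funext T'; rw [omL_apply]; exact om_anti _ _
    rw [this]
    exact ((omL (f k)).continuous.comp hXc).neg
  have evA : ∀ᶠ T' in 𝓝 T1, ∑ k, om (S.Xv w0 (Φ.Z T')) (f k) * om (S.e k) (S.Xv w0 (Φ.Z T'))
      < -(h0 / 4 * s1) := by
    have : Continuous (fun T' => ∑ k, om (S.Xv w0 (Φ.Z T')) (f k) * om (S.e k) (S.Xv w0 (Φ.Z T'))) :=
      continuous_finsetSum _ fun k _ => (huc k).mul (hec k)
    exact this.continuousAt.eventually_lt continuousAt_const h1'
  have evB : ∀ᶠ T' in 𝓝 T1, ∑ k, (om (S.e k) (S.Xv w0 (Φ.Z T'))) ^ 2 < 2 * B * s1 ^ 2 := by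
    have : Continuous (fun T' => ∑ k, (om (S.e k) (S.Xv w0 (Φ.Z T'))) ^ 2) :=
      continuous_finsetSum _ fun k _ => (hec k).pow 2
    exact this.continuousAt.eventually_lt continuousAt_const h2'
  have evC : ∀ᶠ T' in 𝓝 T1, dist T' T1 < δ := Metric.ball_mem_nhds T1 hδpos
  -- shift back to T
  have hshift : Tendsto (fun T' : K → ℝ => T' + (s0 + s1) • one) (𝓝 T) (𝓝 T1) := by
    have : Continuous (fun T' : K → ℝ => T' + (s0 + s1) • one) := by fun_prop
    have h4 := this.tendsto T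
    have h5 : T + (s0 + s1) • one = T1 := by
      rw [hT1, hT0, add_smul, add_assoc]
    rwa [h5] at h4
  filter_upwards [hshift.eventually (evA.and (evB.and evC))] with T' hT'
  obtain ⟨hA', hB', hC'⟩ := hT'
  by_contra hbad
  set T2 : K → ℝ := T' + (s0 + s1) • one with hT2
  have hns : ∀ s : ℝ, ∀ w : K → ℝ, (∀ k, om (S.e k) (S.Xv w
      (Φ.Z (T2 + s • (fun _ => (-1 : ℝ))))) = 0) → w = 0 := by
    intro s w hw
    by_contra hwne
    refine hbad ⟨s0 + s1 - s, w, hwne, fun k => ?_⟩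
    have e1 : T' + (s0 + s1 - s) • (fun _ : K => (1 : ℝ)) = T2 + s • (fun _ => (-1 : ℝ)) := by
      funext k
      simp [hT2, hone]
      ring
    rw [e1, om_anti, hw k, neg_zero]
  refine OP_core hIS hDR Φ hef hff hlg T2 w0 c A (2 * B * s1 ^ 2) (h0 / 4 * s1) δ hc hA
    (by positivity) (by positivity) hδpos hAf ?_ hns hA'.le hB'.le ?_
  · intro s hs x
    refine hball ?_ x
    have e1 : T2 + s • (fun _ : K => (-1 : ℝ)) - T0 = (T2 - T1) + (s1 - s) • one := by
      funext k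
      simp [hT1, hone]
      ring
    rw [dist_eq_norm, e1]
    have e2 : ‖one‖ ≤ 1 := (pi_norm_le_iff_of_nonneg zero_le_one).mpr fun i => by simp [hone]
    have e3 : ‖(s1 - s) • one‖ ≤ δ := by
      rw [norm_smul]
      have e4 : ‖s1 - s‖ ≤ δ := by
        rw [Real.norm_eq_abs, abs_le]
        constructor <;> linarith [hs.1, hs.2]
      calc ‖s1 - s‖ * ‖one‖ ≤ δ * 1 := by gcongr
        _ = δ := mul_one _
    rw [dist_eq_norm] at hC'
    have e5 := norm_add_le (T2 - T1) ((s1 - s) • one)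
    have e6 : δ + δ < ρ := by rw [hδ]; linarith
    linarith
  · rw [lt_div_iff₀ (by positivity)] at h32
    have e1 : c / (A * (2 * B * s1 ^ 2)) * (h0 / 4 * s1) * δ = (c * h0 * δ) / (8 * A * B * s1) := by
      field_simp
      ring
    rw [e1, lt_div_iff₀ (by positivity)]
    linarith

end Pool.Agent.helper73.AD
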